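import Pool.Agent.Helper70.TW.Goals2

/-!
# Project TW, part TW: the goal CUB
-/

namespace Pool.Agent.Helper77.TW

open MvPolynomial Pool.Agent.Helper70.TW

universe u

/-- The restriction of a form to a plane. -/
theorem plane {K : Type u} [Field K] {n : ℕ} (f : MvPolynomial (Fin n) K) {m : ℕ}
    (hf : f.IsHomogeneous m) (x y : Fin n → K) :
    ∃ c : ℕ → K, ∀ (A : Type u) [CommRing A] [Algebra K A] (s t : A),
      aeval (fun i => algebraMap K A (x i) * s + algebraMap K A (y i) * t) f =
        ∑ k ∈ Finset.range (m + 1), algebraMap K A (c k) * (s ^ (m - k) * t ^ k) := by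
  classical
  set g : MvPolynomial (Fin 2) K := aeval (fun i => C (x i) * X 0 + C (y i) * X 1) f with hg
  have hgh : g.IsHomogeneous m := by
    have h := hf.aeval (fun i => (C (x i) * X 0 + C (y i) * X 1 : MvPolynomial (Fin 2) K))
      (n := 1) (fun i => by
        refine IsHomogeneous.add ?_ ?_
        · exact isHomogeneous_C_mul_X _ _
        · exact isHomogeneous_C_mul_X _ _)
    rw [one_mul] at h
    exact h
  refine ⟨fun k => ∑ d ∈ g.support with d 1 = k, coeff d g, fun A _ _ s t => ?_⟩
  have h1 : aeval (fun i => algebraMap K A (x i) * s + algebraMap K A (y i) * t) f =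
      aeval ![s, t] g := by
    rw [hg, ← AlgHom.comp_apply, comp_aeval]
    congr 2
    funext i
    simp
  rw [h1, aeval_def, eval₂_eq']
  have hdeg : ∀ d ∈ g.support, d 0 + d 1 = m := by
    intro d hd
    have := hgh (mem_support_iff.1 hd)
    rw [Finsupp.weight_apply, Finsupp.sum_fintype _ _ (by simp)] at this
    simpa [Fin.sum_univ_two] using this
  rw [← Finset.sum_fiberwise_of_maps_to (s := g.support) (t := Finset.range (m + 1))
    (g := fun d => d 1)]
  · refine Finset.sum_congr rfl fun k hk => ?_
    rw [map_sum, Finset.sum_mul]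
    refine Finset.sum_congr rfl fun d hd => ?_
    rw [Finset.mem_filter] at hd
    have h2 := hdeg d hd.1
    have h3 : d 0 = m - k := by omega
    simp only [Fin.prod_univ_two, Matrix.cons_val_zero, Matrix.cons_val_one]
    rw [hd.2, h3]
  · intro d hd
    rw [Finset.mem_range]
    have h2 := hdeg d hd
    omega

/-- **CUB**. -/
theorem cub : CUB.{u} := by
  intro K _ _ hK n f hf ⟨z, hz, hfz⟩
  obtain ⟨c, hc⟩ := plane f hf (fun i => (z i).re) (fun i => (z i).im)
  have hE : ∀ s t : K, eval (fun i => (z i).re * s + (z i).im * t) f =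
      c 0 * s ^ 3 + c 1 * (s ^ 2 * t) + c 2 * (s * t ^ 2) + c 3 * t ^ 3 := by
    intro s t
    have := hc K s t
    simp only [Algebra.algebraMap_self, RingHom.id_apply, Finset.sum_range_succ,
      Finset.sum_range_zero] at this
    rw [← coe_aeval_eq_eval]
    simp only [RingHom.coe_coe]
    rw [this]
    ring
  have hG := hc (GF K) 1 ⟨0, 1⟩
  have hzz : (fun i => algebraMap K (GF K) (z i).re * 1 + algebraMap K (GF K) (z i).im * ⟨0, 1⟩) =
      z := by
    funext i
    ext <;> simp [QuadraticAlgebra.algebraMap_eq]
  rw [hzz, aeval_def, ← eval_map, hfz] at hG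
  simp only [Finset.sum_range_succ, Finset.sum_range_zero, one_pow, one_mul, zero_add, pow_zero,
    mul_one, QuadraticAlgebra.ext_iff, QuadraticAlgebra.algebraMap_eq, pow_succ] at hG
  simp at hG
  obtain ⟨h02, h13⟩ := hG
  have e2 : c 2 = c 0 := by linear_combination h02
  have e3 : c 3 = c 1 := by linear_combination h13
  have hF : ∀ s t : K, eval (fun i => (z i).re * s + (z i).im * t) f =
      (s ^ 2 + t ^ 2) * (c 0 * s + c 1 * t) := by
    intro s t
    rw [hE, e2, e3]
    ring
  by_cases hcc : c 0 = 0 ∧ c 1 = 0
  · by_cases hx : (fun i => (z i).re) = 0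
    · refine ⟨fun i => (z i).im, ?_, ?_⟩
      · intro hy
        apply hz
        funext i
        ext
        · exact congrFun hx i
        · exact congrFun hy i
      · have := hF 0 1
        simpa [hcc.1, hcc.2] using this
    · refine ⟨fun i => (z i).re, hx, ?_⟩
      have := hF 1 0
      simpa [hcc.1, hcc.2] using this
  · refine ⟨fun i => (z i).re * c 1 + (z i).im * (- c 0), ?_, ?_⟩
    · intro h0
      apply hcc
      have ha := hF (c 0) (c 1)
      have hb := hF (c 0 + c 1) (c 1 - c 0)
      have hab : (fun i => (z i).re * (c 0 + c 1) + (z i).im * (c 1 - c 0)) =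
          (fun i => (z i).re * c 0 + (z i).im * c 1) := by
        funext i
        have := congrFun h0 i
        simp only [Pi.zero_apply] at this
        linear_combination this
      rw [hab, ha] at hb
      have hN : (c 0 ^ 2 + c 1 ^ 2) ^ 2 = 0 := by linear_combination -hb
      have hN' : c 0 ^ 2 + c 1 ^ 2 = 0 := by simpa using hN
      by_cases h0' : c 0 = 0
      · refine ⟨h0', ?_⟩
        rw [h0'] at hN'
        simpa using hN'
      · exfalso
        apply hK (c 1 / c 0)
        field_simp
        linear_combination hN'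
    · rw [hF]
      ring

end Pool.Agent.Helper77.TW
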